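import Pool.Agent.helper7.BQ.Spec
import Pool.Agent.helper85.TG.VA1
import Pool.Agent.helper29.FC.B6

set_option autoImplicit false

namespace Pool.Agent.BQ

open Finset ArithmeticFunction MeasureTheory
open Pool.Agent.helper74.TG (ee gb)

private theorem SQF_quad {ι : Type} [DecidableEq ι] (J : Finset ι) (c α : ι → ℝ) (X : ℕ) (D : ℝ)
    (hD0 : 0 ≤ D)
    (hD : ∀ j ∈ J, ∀ k ∈ J, j ≠ k → ‖∑ n ∈ Ioc 0 X, ee ((n : ℝ) * (α j - α k))‖ ≤ D) :
    ∑ n ∈ Ioc 0 X, ‖∑ j ∈ J, (c j : ℂ) * ee ((n : ℝ) * α j)‖ ^ 2 ≤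
      X * ∑ j ∈ J, c j ^ 2 + D * (∑ j ∈ J, |c j|) ^ 2 := by
  have e1 : ((∑ n ∈ Ioc 0 X, ‖∑ j ∈ J, (c j : ℂ) * ee ((n : ℝ) * α j)‖ ^ 2 : ℝ) : ℂ) =
      ∑ j ∈ J, ∑ k ∈ J, ((c j * c k : ℝ) : ℂ) * ∑ n ∈ Ioc 0 X, ee ((n : ℝ) * (α j - α k)) := by
    push_cast
    have : ∀ n ∈ Ioc 0 X, ((‖∑ j ∈ J, (c j : ℂ) * ee ((n : ℝ) * α j)‖ : ℝ) : ℂ) ^ 2 =
        ∑ j ∈ J, ∑ k ∈ J, (c j : ℂ) * (c k : ℂ) * ee ((n : ℝ) * (α j - α k)) := by
      intro n _
      rw [← Complex.mul_conj', map_sum, sum_mul_sum]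
      refine sum_congr rfl fun j _ => sum_congr rfl fun k _ => ?_
      rw [map_mul, Complex.conj_ofReal, ← Pool.Agent.helper74.TG.h85_ee_neg]
      have e : ee ((n : ℝ) * (α j - α k)) = ee ((n : ℝ) * α j) * ee (-((n : ℝ) * α k)) := by
        rw [← Pool.Agent.helper74.TG.h85_ee_add]
        congr 1
        ring
      rw [e]
      ring
    rw [sum_congr rfl this, sum_comm]
    refine sum_congr rfl fun j _ => ?_
    rw [sum_comm]
    refine sum_congr rfl fun k _ => ?_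
    rw [mul_sum]
  have h0 : 0 ≤ ∑ n ∈ Ioc 0 X, ‖∑ j ∈ J, (c j : ℂ) * ee ((n : ℝ) * α j)‖ ^ 2 :=
    sum_nonneg fun _ _ => by positivity
  have e2 : ∑ n ∈ Ioc 0 X, ‖∑ j ∈ J, (c j : ℂ) * ee ((n : ℝ) * α j)‖ ^ 2 =
      ‖∑ j ∈ J, ∑ k ∈ J, ((c j * c k : ℝ) : ℂ) * ∑ n ∈ Ioc 0 X, ee ((n : ℝ) * (α j - α k))‖ := by
    rw [← e1, Complex.norm_real, Real.norm_of_nonneg h0]
  rw [e2]
  have hterm : ∀ j ∈ J, ∀ k ∈ J,
      ‖((c j * c k : ℝ) : ℂ) * ∑ n ∈ Ioc 0 X, ee ((n : ℝ) * (α j - α k))‖ ≤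
        (if j = k then X * c j ^ 2 else 0) + D * (|c j| * |c k|) := by
    intro j hj k hk
    rw [norm_mul, Complex.norm_real, Real.norm_eq_abs, abs_mul]
    by_cases hjk : j = k
    · subst hjk
      rw [if_pos rfl]
      have h1 : ‖∑ n ∈ Ioc 0 X, ee ((n : ℝ) * (α j - α j))‖ ≤ X := by
        refine (norm_sum_le _ _).trans ?_
        simp [Pool.Agent.helper74.TG.h85_norm_ee]
      have h2 : |c j| * |c j| = c j ^ 2 := by rw [abs_mul_abs_self, sq]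
      rw [h2]
      have h3 := mul_le_mul_of_nonneg_left h1 (sq_nonneg (c j))
      have h4 := mul_nonneg hD0 (sq_nonneg (c j))
      linarith
    · rw [if_neg hjk, zero_add, mul_comm D]
      exact mul_le_mul_of_nonneg_left (hD j hj k hk hjk) (by positivity)
  refine (norm_sum_le _ _).trans ?_
  refine (sum_le_sum fun j hj => norm_sum_le _ _).trans ?_
  refine (sum_le_sum fun j hj => sum_le_sum fun k hk => hterm j hj k hk).trans ?_
  have e3 : ∑ j ∈ J, ∑ k ∈ J, ((if j = k then X * c j ^ 2 else 0) + D * (|c j| * |c k|)) =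
      X * ∑ j ∈ J, c j ^ 2 + D * (∑ j ∈ J, |c j|) ^ 2 := by
    simp only [sum_add_distrib]
    congr 1
    · rw [mul_sum]
      refine sum_congr rfl fun j hj => ?_
      rw [sum_ite_eq, if_pos hj]
    · rw [sq, sum_mul_sum, mul_sum]
      refine sum_congr rfl fun j _ => ?_
      rw [mul_sum]
  exact e3.le

private theorem SQF_gap (Q q q' a a' : ℕ) (hq : 1 ≤ q) (hq' : 1 ≤ q') (hqQ : q ≤ Q) (hqQ' : q' ≤ Q)
    (ha : a < q) (ha' : a' < q') (hc : Nat.Coprime a q) (hc' : Nat.Coprime a' q')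
    (hne : ¬ (q = q' ∧ a = a')) (X : ℕ) :
    ‖∑ n ∈ Ioc 0 X, ee ((n : ℝ) * ((a : ℝ) / q - (a' : ℝ) / q'))‖ ≤ (Q : ℝ) ^ 2 := by
  set β : ℝ := (a : ℝ) / q - (a' : ℝ) / q' with hβ
  have hq0 : (0 : ℝ) < q := by exact_mod_cast hq
  have hq0' : (0 : ℝ) < q' := by exact_mod_cast hq'
  have hqQr : (q : ℝ) ≤ Q := by exact_mod_cast hqQ
  have hqQr' : (q' : ℝ) ≤ Q := by exact_mod_cast hqQ'
  -- the numerator
  set N : ℤ := (a : ℤ) * q' - a' * q - round β * (q * q') with hN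
  have hNβ : β - round β = (N : ℝ) / (q * q') := by
    rw [hN, hβ]
    push_cast
    field_simp
  have hN0 : N ≠ 0 := by
    intro h0
    rw [h0, Int.cast_zero, zero_div, sub_eq_zero] at hNβ
    have b1 : β < 1 := by
      have h1 : (a : ℝ) / q < 1 := by
        rw [div_lt_one hq0]
        exact_mod_cast ha
      have h2 : 0 ≤ (a' : ℝ) / q' := by positivity
      rw [hβ]
      linarith
    have b2 : -1 < β := by
      have h1 : (a' : ℝ) / q' < 1 := by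
        rw [div_lt_one hq0']
        exact_mod_cast ha'
      have h2 : 0 ≤ (a : ℝ) / q := by positivity
      rw [hβ]
      linarith
    have hr : round β = 0 := by
      rw [hNβ] at b1 b2
      have c1 : round β < 1 := by exact_mod_cast b1
      have c2 : -1 < round β := by exact_mod_cast b2
      omega
    rw [hr, Int.cast_zero] at hNβ
    rw [hβ, sub_eq_zero, div_eq_div_iff hq0.ne' hq0'.ne'] at hNβ
    have h3 : a * q' = a' * q := by exact_mod_cast hNβ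
    have h4 : q ∣ q' := by
      have : q ∣ a * q' := ⟨a', by rw [h3]; ring⟩
      exact (Nat.Coprime.dvd_of_dvd_mul_left hc.symm this)
    have h5 : q' ∣ q := by
      have : q' ∣ a' * q := ⟨a, by rw [← h3]; ring⟩
      exact (Nat.Coprime.dvd_of_dvd_mul_left hc'.symm this)
    have h6 : q = q' := Nat.dvd_antisymm h4 h5
    refine hne ⟨h6, ?_⟩
    subst h6
    exact Nat.eq_of_mul_eq_mul_right (by omega) h3
  have hlow : 1 / (Q : ℝ) ^ 2 ≤ |β - round β| := by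
    rw [hNβ, abs_div, abs_of_pos (by positivity : (0 : ℝ) < q * q')]
    have h1 : (1 : ℝ) ≤ |(N : ℝ)| := by
      rw [← Int.cast_abs]
      exact_mod_cast Int.one_le_abs hN0
    have h2 : (q : ℝ) * q' ≤ (Q : ℝ) ^ 2 := by
      rw [sq]
      exact mul_le_mul hqQr hqQr' hq0'.le (by linarith)
    exact div_le_div₀ (by positivity) h1 (by positivity) h2
  have hQ0 : (0 : ℝ) < Q := by linarith
  have hg := Pool.Agent.helper74.TG.geom_bound 0 X (Nat.zero_le X) β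
  refine hg.trans ?_
  have hpos : 0 < |β - round β| := lt_of_lt_of_le (by positivity) hlow
  have hinv : 1 / (2 * |β - round β|) ≤ (Q : ℝ) ^ 2 := by
    rw [div_le_iff₀ (by positivity)]
    rw [div_le_iff₀ (by positivity)] at hlow
    nlinarith
  unfold gb
  split_ifs with h
  · refine le_trans ?_ hinv
    rw [le_div_iff₀ (by positivity)]
    push_cast at h ⊢
    linarith
  · exact hinv

private theorem SQF_lsh (h1 : KLU_stmt) (Q X : ℕ) :
    ∑ n ∈ Ioc 0 X, Lsh Q (n : ℤ) ^ 2 ≤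
      X * ∑ q ∈ Ioc 0 Q, 1 / (Nat.totient q : ℝ) + (Q : ℝ) ^ 4 := by
  classical
  set J : Finset (Σ _ : ℕ, ℕ) := (Ioc 0 Q).sigma fun q =>
    (range q).filter (fun a => Nat.Coprime a q) with hJ
  set c : (Σ _ : ℕ, ℕ) → ℝ := fun j => ((moebius j.1 : ℤ) : ℝ) / (Nat.totient j.1 : ℝ) with hc
  set α : (Σ _ : ℕ, ℕ) → ℝ := fun j => (j.2 : ℝ) / j.1 with hα
  have hL : ∀ n : ℕ, ((Lsh Q (n : ℤ) : ℝ) : ℂ) = ∑ j ∈ J, (c j : ℂ) * ee ((n : ℝ) * α j) := by
    intro n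
    rw [hJ, sum_sigma]
    unfold Lsh
    rw [Complex.ofReal_sum]
    refine sum_congr rfl fun q hq => ?_
    rw [mem_Ioc] at hq
    rw [Complex.ofReal_mul, h1 q n hq.1, mul_sum]
    refine sum_congr rfl fun a _ => ?_
    congr 2
    simp only [hα]
    push_cast
    ring
  have hmemJ : ∀ j ∈ J, 1 ≤ j.1 ∧ j.1 ≤ Q ∧ j.2 < j.1 ∧ Nat.Coprime j.2 j.1 := by
    intro j hj
    rw [hJ, mem_sigma, mem_Ioc, mem_filter, mem_range] at hj
    exact ⟨hj.1.1, hj.1.2, hj.2.1, hj.2.2⟩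
  have hq := SQF_quad J c α X ((Q : ℝ) ^ 2) (by positivity) fun j hj k hk hjk => by
    obtain ⟨a1, a2, a3, a4⟩ := hmemJ j hj
    obtain ⟨b1, b2, b3, b4⟩ := hmemJ k hk
    refine SQF_gap Q j.1 k.1 j.2 k.2 a1 b1 a2 b2 a3 b3 a4 b4 ?_ X
    rintro ⟨e1, e2⟩
    exact hjk (Sigma.ext e1 (heq_of_eq e2))
  have e1 : ∑ n ∈ Ioc 0 X, Lsh Q (n : ℤ) ^ 2 =
      ∑ n ∈ Ioc 0 X, ‖∑ j ∈ J, (c j : ℂ) * ee ((n : ℝ) * α j)‖ ^ 2 := by
    refine sum_congr rfl fun n _ => ?_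
    rw [← hL n, Complex.norm_real, Real.norm_eq_abs, sq_abs]
  have hmu : ∀ q : ℕ, |((moebius q : ℤ) : ℝ)| ≤ 1 := by
    intro q
    have := abs_moebius_le_one (n := q)
    exact_mod_cast this
  have e2 : ∑ j ∈ J, c j ^ 2 ≤ ∑ q ∈ Ioc 0 Q, 1 / (Nat.totient q : ℝ) := by
    rw [hJ, sum_sigma]
    refine sum_le_sum fun q hq => ?_
    rw [mem_Ioc] at hq
    have hφ : (0 : ℝ) < (Nat.totient q : ℝ) := by exact_mod_cast Nat.totient_pos.2 hq.1
    have hcard : #((range q).filter fun a => Nat.Coprime a q) = Nat.totient q := by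
      rw [Nat.totient_eq_card_coprime]
      congr 1
      ext a
      simp only [mem_filter, mem_range, Nat.coprime_comm]
    simp only [hc]
    rw [sum_const, hcard, nsmul_eq_mul, div_pow]
    have h2 : ((moebius q : ℤ) : ℝ) ^ 2 ≤ 1 := by
      rw [← sq_abs]
      exact pow_le_one₀ (abs_nonneg _) (hmu q)
    calc (Nat.totient q : ℝ) * (((moebius q : ℤ) : ℝ) ^ 2 / (Nat.totient q : ℝ) ^ 2)
        ≤ (Nat.totient q : ℝ) * (1 / (Nat.totient q : ℝ) ^ 2) := by gcongr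
      _ = 1 / (Nat.totient q : ℝ) := by field_simp
  have e3 : ∑ j ∈ J, |c j| ≤ Q := by
    rw [hJ, sum_sigma]
    have : ∀ q ∈ Ioc 0 Q, ∑ a ∈ (range q).filter (fun a => Nat.Coprime a q), |c ⟨q, a⟩| ≤ 1 := by
      intro q hq
      rw [mem_Ioc] at hq
      have hφ : (0 : ℝ) < (Nat.totient q : ℝ) := by exact_mod_cast Nat.totient_pos.2 hq.1
      have hcard : #((range q).filter fun a => Nat.Coprime a q) = Nat.totient q := by
        rw [Nat.totient_eq_card_coprime]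
        congr 1
        ext a
        simp only [mem_filter, mem_range, Nat.coprime_comm]
      simp only [hc]
      rw [sum_const, hcard, nsmul_eq_mul, abs_div, abs_of_pos hφ, mul_div_cancel₀ _ hφ.ne']
      exact hmu q
    refine (sum_le_sum this).trans ?_
    simp
  have e4 : 0 ≤ ∑ j ∈ J, |c j| := sum_nonneg fun _ _ => abs_nonneg _
  rw [e1]
  refine hq.trans ?_
  have e5 : (∑ j ∈ J, |c j|) ^ 2 ≤ (Q : ℝ) ^ 2 := pow_le_pow_left₀ e4 e3 2
  have e6 : (Q : ℝ) ^ 2 * (∑ j ∈ J, |c j|) ^ 2 ≤ (Q : ℝ) ^ 4 := by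
    calc (Q : ℝ) ^ 2 * (∑ j ∈ J, |c j|) ^ 2 ≤ (Q : ℝ) ^ 2 * (Q : ℝ) ^ 2 := by gcongr
      _ = (Q : ℝ) ^ 4 := by ring
  have e7 : (X : ℝ) * ∑ j ∈ J, c j ^ 2 ≤ X * ∑ q ∈ Ioc 0 Q, 1 / (Nat.totient q : ℝ) :=
    mul_le_mul_of_nonneg_left e2 (Nat.cast_nonneg X)
  linarith

private theorem SQF_mang (X : ℕ) : ∑ n ∈ Ioc 0 X, vonMangoldt n ^ 2 ≤ 6 * X * Real.log X := by
  rcases Nat.eq_zero_or_pos X with hX | hX
  · subst hX
    simp
  have hX1 : (1 : ℝ) ≤ X := by exact_mod_cast hX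
  have h0 : 0 ≤ Real.log X := Real.log_nonneg hX1
  have h1 : ∀ n ∈ Ioc 0 X, vonMangoldt n ^ 2 ≤ Real.log X * vonMangoldt n := by
    intro n hn
    rw [mem_Ioc] at hn
    rw [sq]
    refine mul_le_mul_of_nonneg_right ?_ vonMangoldt_nonneg
    refine vonMangoldt_le_log.trans ?_
    exact Real.log_le_log (by exact_mod_cast hn.1) (by exact_mod_cast hn.2)
  refine (sum_le_sum h1).trans ?_
  rw [← mul_sum]
  have h2 : ∑ n ∈ Ioc 0 X, vonMangoldt n = Chebyshev.psi (X : ℝ) := by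
    unfold Chebyshev.psi
    rw [Nat.floor_natCast]
  rw [h2]
  have h3 := Chebyshev.psi_le_const_mul_self (x := (X : ℝ)) (by positivity)
  have h4 : Real.log 4 ≤ 2 := by
    have : (4 : ℝ) = 2 ^ 2 := by norm_num
    rw [this, Real.log_pow]
    have := Real.log_two_lt_d9
    push_cast
    linarith
  have h5 : Chebyshev.psi (X : ℝ) ≤ 6 * X := by nlinarith
  nlinarith

private theorem SQF_ev (K : ℕ) : ∃ X₀ : ℕ, ∀ X : ℕ, X₀ ≤ X → 1 ≤ Real.log X ∧
    1 + 2 * (K * Real.log (Real.log X)) ≤ Real.log X ∧ Real.log X ^ (4 * K) ≤ X := by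
  have hl : Filter.Tendsto (fun N : ℕ => Real.log (N : ℝ)) Filter.atTop Filter.atTop :=
    Real.tendsto_log_atTop.comp tendsto_natCast_atTop_atTop
  have h1 : ∀ᶠ y : ℝ in Filter.atTop, 1 + 2 * (K * Real.log y) ≤ y := by
    have hlo : (fun y : ℝ => Real.log y) =o[Filter.atTop] fun y : ℝ => y := Real.isLittleO_log_id_atTop
    have hb := hlo.bound (c := 1 / (4 * ((K : ℝ) + 1))) (by positivity)
    filter_upwards [hb, Filter.eventually_ge_atTop (2 : ℝ)] with y hy hy2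
    have hlog : 0 ≤ Real.log y := Real.log_nonneg (by linarith)
    rw [Real.norm_of_nonneg hlog, Real.norm_of_nonneg (by linarith : (0 : ℝ) ≤ y)] at hy
    have hK : (0 : ℝ) ≤ K := Nat.cast_nonneg K
    have h2 : (K : ℝ) * Real.log y ≤ y / 4 := by
      calc (K : ℝ) * Real.log y ≤ ((K : ℝ) + 1) * Real.log y := by nlinarith
        _ ≤ ((K : ℝ) + 1) * (1 / (4 * ((K : ℝ) + 1)) * y) := by gcongr
        _ = y / 4 := by field_simp
    linarith
  have h2 : ∀ᶠ y : ℝ in Filter.atTop, Real.log y ^ (4 * K) ≤ y := by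
    have hlo : (fun y : ℝ => Real.log y ^ (4 * K)) =o[Filter.atTop] fun y : ℝ => y := by
      exact Real.isLittleO_pow_log_id_atTop (n := 4 * K)
    have hb := hlo.bound (c := 1) (by norm_num)
    filter_upwards [hb, Filter.eventually_ge_atTop (1 : ℝ)] with y hy hy2
    have hlog : 0 ≤ Real.log y := Real.log_nonneg hy2
    rw [Real.norm_of_nonneg (by positivity), Real.norm_of_nonneg (by linarith : (0 : ℝ) ≤ y),
      one_mul] at hy
    exact hy
  have := (hl.eventually_ge_atTop 1).and ((hl.eventually h1).and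
    (tendsto_natCast_atTop_atTop.eventually h2))
  obtain ⟨X₀, hX⟩ := Filter.eventually_atTop.1 this
  exact ⟨X₀, fun X hXX => ⟨(hX X hXX).1, (hX X hXX).2.1, (hX X hXX).2.2⟩⟩

theorem SQF (h1 : KLU_stmt) : SQF_stmt := by
  refine ⟨16, by norm_num, fun K => ?_⟩
  obtain ⟨X₀, hE⟩ := SQF_ev K
  refine ⟨max X₀ 1, ?_⟩
  intro X hX Q hQ
  obtain ⟨hL1, hLL, hpow⟩ := hE X ((le_max_left _ _).trans hX)
  have hX1 : 1 ≤ X := (le_max_right _ _).trans hX
  have hX1' : (1 : ℝ) ≤ X := by exact_mod_cast hX1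
  set L := Real.log (X : ℝ) with hL
  have hm := SQF_mang X
  rw [← hL] at hm
  have hlsh := SQF_lsh h1 Q X
  have hLs : ∑ n ∈ Ioc 0 X, Lsh Q (n : ℤ) ^ 2 ≤ 2 * X * L ^ 2 := by
    rcases Nat.eq_zero_or_pos Q with hQ0 | hQ0
    · subst hQ0
      have : ∀ n ∈ Ioc 0 X, Lsh 0 (n : ℤ) ^ 2 = 0 := by
        intro n _
        simp [Lsh]
      rw [sum_congr rfl this, sum_const_zero]
      positivity
    have hQ1 : (1 : ℝ) ≤ Q := by exact_mod_cast hQ0
    have hinv := Pool.Agent.helper85.FC.B6_sum_inv Q hQ0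
    have e0 : ∑ q ∈ Ioc 0 Q, 1 / (Nat.totient q : ℝ) = ∑ q ∈ Icc 1 Q, 1 / (Nat.totient q : ℝ) := by
      refine sum_congr ?_ fun _ _ => rfl
      ext q
      simp only [mem_Ioc, mem_Icc]
      omega
    rw [← e0] at hinv
    have hlogQ : Real.log Q ≤ K * Real.log L := by
      have := Real.log_le_log (by linarith) hQ
      rwa [Real.log_pow] at this
    have hlogQ0 : 0 ≤ Real.log Q := Real.log_nonneg hQ1
    have a1 : 1 + 2 * Real.log Q ≤ L := by linarith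
    have a2 : 1 + Real.log Q ≤ L := by linarith
    have a3 : (1 + 2 * Real.log Q) * (1 + Real.log Q) ≤ L * L :=
      mul_le_mul a1 a2 (by linarith) (by linarith)
    have a4 : (Q : ℝ) ^ 4 ≤ X := by
      calc (Q : ℝ) ^ 4 ≤ (L ^ K) ^ 4 := by gcongr
        _ = L ^ (4 * K) := by rw [← pow_mul, mul_comm]
        _ ≤ X := hpow
    have a5 : (X : ℝ) * ∑ q ∈ Ioc 0 Q, 1 / (Nat.totient q : ℝ) ≤ X * (L * L) :=
      mul_le_mul_of_nonneg_left (hinv.trans a3) (by linarith)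
    have a6 : (X : ℝ) ≤ X * L ^ 2 := by
      have : 1 ≤ L ^ 2 := one_le_pow₀ hL1
      nlinarith
    nlinarith
  have hsq : ∀ n ∈ Ioc 0 X, fl Q n ^ 2 ≤ 2 * vonMangoldt n ^ 2 + 2 * Lsh Q (n : ℤ) ^ 2 := by
    intro n _
    unfold fl
    nlinarith [sq_nonneg (vonMangoldt n + Lsh Q (n : ℤ))]
  refine (sum_le_sum hsq).trans ?_
  rw [sum_add_distrib, ← mul_sum, ← mul_sum]
  have a7 : (X : ℝ) * L ≤ X * L ^ 2 := by
    have : L ≤ L ^ 2 := by nlinarith
    nlinarith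
  nlinarith

end Pool.Agent.BQ
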